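import Pool.Agent.H301R2.SSE.Nine3

/-!
At least five of the nine numbers
`π + e`, `π - e`, `π e`, `π / e`, `π ^ π`, `e ^ e`, `π ^ e`, `π ^ √2`, `e ^ (π²)`
are transcendental, with the list of the sets that are shown to contain a transcendental number.
-/

set_option autoImplicit false

namespace Pool.Agent.Results.MP_a2f59b_nt.FiveOfNine

open Real Pool.Agent.H301R2.Nine

/-- the nine numbers, in the order of the problem -/
noncomputable def nine : Fin 9 → ℝ :=
  ![π + exp 1, π - exp 1, π * exp 1, π / exp 1, π ^ π, exp 1 ^ exp 1, π ^ exp 1, π ^ √2,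
    exp 1 ^ (π ^ 2)]

theorem hB (h : IsAlgebraic ℚ (nine 4)) : IsAlgebraic ℚ (Real.exp (π * L)) := by
  have e : nine 4 = Real.exp (π * L) := by
    simp [nine, L, Real.rpow_def_of_pos Real.pi_pos, mul_comm]
  rwa [e] at h

theorem hC (h : IsAlgebraic ℚ (nine 5)) : IsAlgebraic ℚ (Real.exp (Real.exp 1)) := by
  have e : nine 5 = Real.exp (Real.exp 1) := by
    simp [nine, Real.exp_one_rpow]
  rwa [e] at h

theorem hD (h : IsAlgebraic ℚ (nine 6)) : IsAlgebraic ℚ (Real.exp (Real.exp 1 * L)) := by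
  have e : nine 6 = Real.exp (Real.exp 1 * L) := by
    simp [nine, L, Real.rpow_def_of_pos Real.pi_pos, mul_comm]
  rwa [e] at h

theorem hE (h : IsAlgebraic ℚ (nine 7)) : IsAlgebraic ℚ (Real.exp (√2 * L)) := by
  have e : nine 7 = Real.exp (√2 * L) := by
    simp [nine, L, Real.rpow_def_of_pos Real.pi_pos, mul_comm]
  rwa [e] at h

theorem hF (h : IsAlgebraic ℚ (nine 8)) : IsAlgebraic ℚ (Real.exp (π * π)) := by
  have e : nine 8 = Real.exp (π * π) := by
    simp [nine, Real.exp_one_rpow, sq]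
  rwa [e] at h

/-- the sets of indices that are shown to contain a transcendental number -/
def sets : List (List (Fin 9)) :=
  [[0, 1], [0, 2], [0, 3], [1, 2], [1, 3], [2, 3], [0, 5], [1, 5], [3, 5], [2, 7], [3, 7],
    [2, 4, 5], [2, 4, 6], [2, 4, 8], [2, 5, 6], [2, 5, 8], [2, 6, 8], [3, 4, 8], [3, 6, 8],
    [4, 7, 8], [0, 4, 6, 8], [1, 4, 6, 8], [0, 6, 7, 8], [1, 6, 7, 8], [4, 5, 6, 7]]

theorem main (S : List (Fin 9)) (hS : S ∈ sets) (h : ∀ i ∈ S, IsAlgebraic ℚ (nine i)) : False := by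
  simp only [sets, List.mem_cons, List.not_mem_nil, or_false] at hS
  rcases hS with rfl | rfl | rfl | rfl | rfl | rfl | rfl | rfl | rfl | rfl | rfl | rfl | rfl |
    rfl | rfl | rfl | rfl | rfl | rfl | rfl | rfl | rfl | rfl | rfl | rfl <;>
    simp only [List.mem_cons, List.not_mem_nil, or_false, forall_eq_or_imp, forall_eq] at h
  · exact p01 h.1 h.2
  · exact p02 h.1 h.2
  · exact p03 h.1 h.2
  · exact p12 h.1 h.2
  · exact p13 h.1 h.2
  · exact p23 h.1 h.2
  · exact p50 (hC h.2) h.1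
  · exact p51 (hC h.2) h.1
  · exact p53 (hC h.2) h.1
  · exact p27 h.1 (hE h.2)
  · exact p37 h.1 (hE h.2)
  · exact t245 h.1 (hB h.2.1) (hC h.2.2)
  · exact t246 h.1 (hB h.2.1) (hD h.2.2)
  · exact t248 h.1 (hB h.2.1) (hF h.2.2)
  · exact t256 h.1 (hC h.2.1) (hD h.2.2)
  · exact t258 h.1 (hC h.2.1) (hF h.2.2)
  · exact t268 h.1 (hD h.2.1) (hF h.2.2)
  · exact t348 h.1 (hB h.2.1) (hF h.2.2)
  · exact t368 h.1 (hD h.2.1) (hF h.2.2)
  · exact t478 (hB h.1) (hE h.2.1) (hF h.2.2)
  · exact q0468 h.1 (hB h.2.1) (hD h.2.2.1) (hF h.2.2.2)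
  · exact q1468 h.1 (hB h.2.1) (hD h.2.2.1) (hF h.2.2.2)
  · exact q0678 h.1 (hD h.2.1) (hE h.2.2.1) (hF h.2.2.2)
  · exact q1678 h.1 (hD h.2.1) (hE h.2.2.1) (hF h.2.2.2)
  · exact q4567 (hB h.1) (hC h.2.1) (hD h.2.2.1) (hE h.2.2.2)

/-- each of the sets contains a transcendental number -/
theorem main' (S : List (Fin 9)) (hS : S ∈ sets) : ∃ i ∈ S, Transcendental ℚ (nine i) := by
  by_contra hcon
  push Not at hcon
  exact main S hS (fun i hi => by
    have := hcon i hi
    rwa [Transcendental, not_not] at this)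

set_option maxRecDepth 100000 in
theorem count : ∀ b0 b1 b2 b3 b4 b5 b6 b7 b8 : Bool,
    (∀ S ∈ sets, ∃ i ∈ S, ![b0, b1, b2, b3, b4, b5, b6, b7, b8] i = true) →
    5 ≤ b0.toNat + b1.toNat + b2.toNat + b3.toNat + b4.toNat + b5.toNat + b6.toNat + b7.toNat
      + b8.toNat ∧
    (b2 = false → 7 ≤ b0.toNat + b1.toNat + b2.toNat + b3.toNat + b4.toNat + b5.toNat + b6.toNat
      + b7.toNat + b8.toNat) ∧
    (b3 = false → 6 ≤ b0.toNat + b1.toNat + b2.toNat + b3.toNat + b4.toNat + b5.toNat + b6.toNat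
      + b7.toNat + b8.toNat) := by
  decide

/-- At least five of the nine numbers are transcendental; at least seven if `π e` is algebraic
and at least six if `π / e` is algebraic. More precisely each of the sets of indices in `sets`
contains (the index of) a transcendental number. -/
theorem result : 5 ≤ {i : Fin 9 | Transcendental ℚ (nine i)}.ncard ∧
    (IsAlgebraic ℚ (π * exp 1) → 7 ≤ {i : Fin 9 | Transcendental ℚ (nine i)}.ncard) ∧
    (IsAlgebraic ℚ (π / exp 1) → 6 ≤ {i : Fin 9 | Transcendental ℚ (nine i)}.ncard) ∧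
    ∀ S ∈ sets, ∃ i ∈ S, Transcendental ℚ (nine i) := by
  classical
  let b : Fin 9 → Bool := fun i => decide (Transcendental ℚ (nine i))
  have h1 : {i : Fin 9 | Transcendental ℚ (nine i)}.ncard = (b 0).toNat + (b 1).toNat
      + (b 2).toNat + (b 3).toNat + (b 4).toNat + (b 5).toNat + (b 6).toNat + (b 7).toNat
      + (b 8).toNat := by
    have h2 : {i : Fin 9 | Transcendental ℚ (nine i)}
        = ((Finset.univ.filter (fun i => Transcendental ℚ (nine i)) : Finset (Fin 9)) :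
          Set (Fin 9)) := by
      ext i; simp
    rw [h2, Set.ncard_coe_finset, Finset.card_filter]
    have h3 : ∀ i : Fin 9, (if Transcendental ℚ (nine i) then 1 else 0) = (b i).toNat := by
      intro i
      by_cases h : Transcendental ℚ (nine i) <;> simp [b, h]
    rw [Finset.sum_congr rfl (fun i _ => h3 i)]
    simp only [Fin.sum_univ_succ, Fin.sum_univ_zero]
    simp only [add_zero, ← add_assoc]
    rfl
  have hb : ![b 0, b 1, b 2, b 3, b 4, b 5, b 6, b 7, b 8] = b := by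
    funext i
    fin_cases i <;> rfl
  have hc := count (b 0) (b 1) (b 2) (b 3) (b 4) (b 5) (b 6) (b 7) (b 8) (by
    intro S hS
    obtain ⟨i, hi, h⟩ := main' S hS
    refine ⟨i, hi, ?_⟩
    rw [hb]
    simp [b, h])
  rw [← h1] at hc
  refine ⟨hc.1, fun h => hc.2.1 ?_, fun h => hc.2.2 ?_, main'⟩
  · have h2 : ¬ Transcendental ℚ (nine 2) := fun h' => h' h
    simp [b, h2]
  · have h2 : ¬ Transcendental ℚ (nine 3) := fun h' => h' h
    simp [b, h2]

end Pool.Agent.Results.MP_a2f59b_nt.FiveOfNine
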