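import Pool.Agent.H137R5.TowExp

set_option autoImplicit false

/-!
The four numbers `π ^ (π ^ k)`, `e ^ (e ^ k)`, `π ^ (e ^ k)`, `e ^ (π ^ (2 k))`; for `k = 1` these
are `π ^ π`, `e ^ e`, `π ^ e`, `e ^ (π ^ 2)`.

Uses the strong six exponentials theorem (helper301, helper335), the inhomogeneous Baker theorem
(helper297) and the Lindemann-Weierstrass theorem (helper340).
-/

namespace Pool.Agent.Results.MP_a2f59b_nt.FourAtOnce

open Pool.Agent.H137R5.Tow

/-- `t` is *free*: its logarithm is not of the form `γ + β₁ l₁ + ... + βₘ lₘ` with `γ`, the `βᵢ`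
and the exponentials of the `lᵢ` algebraic (complex) numbers, i.e. `t` is not of the form
`e ^ γ * α₁ ^ β₁ * ... * αₘ ^ βₘ`. -/
def Free (t : ℝ) : Prop :=
  ∀ (m : ℕ) (γ : ℂ) (β l : Fin m → ℂ), IsAlgebraic ℚ γ → (∀ i, IsAlgebraic ℚ (β i)) →
    (∀ i, IsAlgebraic ℚ (Complex.exp (l i))) → ((Real.log t : ℝ) : ℂ) ≠ γ + ∑ i, β i * l i

open Classical in
/-- For all but at most `8 √N + 4` of the integers `1 ≤ k ≤ N` the four numbers `π ^ (π ^ k)`,
`e ^ (e ^ k)`, `π ^ (e ^ k)` and `e ^ ((π ^ 2) ^ k)` are all free; free positive numbers are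
transcendental. -/
theorem result :
    (∀ N : ℕ, (((Finset.Icc 1 N).filter (fun k : ℕ =>
      ¬ (Free (Real.pi ^ (Real.pi ^ k)) ∧ Free (Real.exp 1 ^ (Real.exp 1 ^ k)) ∧
        Free (Real.pi ^ (Real.exp 1 ^ k)) ∧ Free (Real.exp 1 ^ ((Real.pi ^ 2) ^ k))))).card : ℝ) ≤
          8 * Real.sqrt N + 4) ∧
    (∀ t : ℝ, 0 < t → Free t → Transcendental ℚ t) := by
  refine ⟨?_, fun t ht hf => free_tr ht hf⟩
  intro N
  have hp := Real.pi_pos
  have he := Real.exp_pos 1
  have hp1 : Real.pi ≠ 1 := by linarith [Real.pi_gt_three]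
  have he1 : Real.exp 1 ≠ 1 := by
    have := Real.exp_one_gt_d9
    linarith
  have tp := Pool.Agent.H340R2.LW.transcendental_pi
  have te := Pool.Agent.H340R2.LW.transcendental_exp_one
  have tp2 : Transcendental ℚ (Real.pi ^ 2) := tp.pow (by norm_num)
  have c1 := topCount Real.pi (Real.log Real.pi) tp (log_ne hp hp1) N
  have c2 := topCount (Real.exp 1) (Real.log (Real.exp 1)) te (log_ne he he1) N
  have c3 := topCount (Real.exp 1) (Real.log Real.pi) te (log_ne hp hp1) N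
  have c4 := topCount (Real.pi ^ 2) (Real.log (Real.exp 1)) tp2 (log_ne he he1) N
  have hsub : (Finset.Icc 1 N).filter (fun k : ℕ =>
      ¬ (Free (Real.pi ^ (Real.pi ^ k)) ∧ Free (Real.exp 1 ^ (Real.exp 1 ^ k)) ∧
        Free (Real.pi ^ (Real.exp 1 ^ k)) ∧ Free (Real.exp 1 ^ ((Real.pi ^ 2) ^ k)))) ⊆
      ((Finset.Icc 1 N).filter (fun k : ℕ => InE Real.pi (Real.log Real.pi) k) ∪
      (Finset.Icc 1 N).filter (fun k : ℕ => InE (Real.exp 1) (Real.log (Real.exp 1)) k)) ∪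
      ((Finset.Icc 1 N).filter (fun k : ℕ => InE (Real.exp 1) (Real.log Real.pi) k) ∪
      (Finset.Icc 1 N).filter (fun k : ℕ => InE (Real.pi ^ 2) (Real.log (Real.exp 1)) k)) := by
    intro k hk
    rw [Finset.mem_filter] at hk
    obtain ⟨hk1, hk2⟩ := hk
    simp only [Finset.mem_union, Finset.mem_filter]
    by_cases f1 : Free (Real.pi ^ (Real.pi ^ k))
    · by_cases f2 : Free (Real.exp 1 ^ (Real.exp 1 ^ k))
      · by_cases f3 : Free (Real.pi ^ (Real.exp 1 ^ k))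
        · by_cases f4 : Free (Real.exp 1 ^ ((Real.pi ^ 2) ^ k))
          · exact absurd ⟨f1, f2, f3, f4⟩ hk2
          · exact Or.inr (Or.inr ⟨hk1, inE_of he f4⟩)
        · exact Or.inr (Or.inl ⟨hk1, inE_of hp f3⟩)
      · exact Or.inl (Or.inr ⟨hk1, inE_of he f2⟩)
    · exact Or.inl (Or.inl ⟨hk1, inE_of hp f1⟩)
  have h1 := (Finset.card_le_card hsub).trans ((Finset.card_union_le _ _).trans
    (Nat.add_le_add (Finset.card_union_le _ _) (Finset.card_union_le _ _)))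
  have h2 : (((Finset.Icc 1 N).filter (fun k : ℕ =>
      ¬ (Free (Real.pi ^ (Real.pi ^ k)) ∧ Free (Real.exp 1 ^ (Real.exp 1 ^ k)) ∧
        Free (Real.pi ^ (Real.exp 1 ^ k)) ∧ Free (Real.exp 1 ^ ((Real.pi ^ 2) ^ k))))).card : ℝ) ≤
      ((((Finset.Icc 1 N).filter (fun k : ℕ => InE Real.pi (Real.log Real.pi) k)).card : ℝ) +
      ((Finset.Icc 1 N).filter (fun k : ℕ => InE (Real.exp 1) (Real.log (Real.exp 1)) k)).card) +
      ((((Finset.Icc 1 N).filter (fun k : ℕ => InE (Real.exp 1) (Real.log Real.pi) k)).card : ℝ) +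
      ((Finset.Icc 1 N).filter (fun k : ℕ => InE (Real.pi ^ 2) (Real.log (Real.exp 1)) k)).card) := by
    exact_mod_cast h1
  linarith

end Pool.Agent.Results.MP_a2f59b_nt.FourAtOnce
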